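import Mathlib
import Pool.Agent.MP_633541_co.Basic
import Pool.Agent.MP_633541_co.OddCase
import Pool.Agent.MP_633541_co.FourCase
import Pool.Agent.MP_633541_co.TwoCase
import Pool.Agent.MP_633541_co.SixCase

/-!
Full answer to Q1 of MP_633541_co: the Oberwolfach problem `OP(3, s, s)` has a solution for every
`s ≥ 3`.
-/

namespace Pool.Agent.Results.MP_633541_co.AllSizes

open Pool.Agent.MP_633541_co

/-- `OP(3, s, s)` has a solution for every `s ≥ 3`. -/
theorem result : ∀ s : ℕ, 3 ≤ s → HasSolution s := by
  intro s hs
  rcases Nat.even_or_odd' s with ⟨k, rfl | rfl⟩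
  · rcases Nat.even_or_odd' k with ⟨j, rfl | rfl⟩
    · have := FourCase.hasSolution j (by omega)
      rwa [show 4 * j = 2 * (2 * j) by ring] at this
    · rcases Nat.lt_or_ge j 2 with h | h
      · obtain rfl : j = 1 := by omega
        exact SixCase.hasSolution
      · have := TwoCase.hasSolution j h
        rwa [show 4 * j + 2 = 2 * (2 * j + 1) by ring] at this
  · exact OddCase.hasSolution k (by omega)

end Pool.Agent.Results.MP_633541_co.AllSizes
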